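import Pool.Agent.Helper60.CI.CycMat

/-!
# A cyclic algebra of prime degree of a non-norm is a division algebra
-/

namespace Pool.Agent.Helper60.CI

universe u

variable {E : Type u} [Field E] (p : ℕ) [Fact p.Prime] (a : E) (s : E →+* E)

/-- The iterated twisted product. -/
def iterU {m : ℕ} (U : Matrix (Fin m) (Fin m) E) : ℕ → Matrix (Fin m) (Fin m) E
  | 0 => 1
  | k + 1 => (iterU U k).map s * U

theorem det_iterU {m : ℕ} (U : Matrix (Fin m) (Fin m) E) (k : ℕ) :
    (iterU s U k).det = ∏ t ∈ Finset.range k, s^[t] U.det := by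
  induction k with
  | zero => simp [iterU]
  | succ k ih =>
    rw [iterU, Matrix.det_mul, ← RingHom.mapMatrix_apply s, ← RingHom.map_det, ih, map_prod,
      Finset.prod_range_succ']
    simp only [Function.iterate_succ_apply', Function.iterate_zero, id_eq]

theorem iterU_mul {m : ℕ} {B : Matrix (Fin m) (ZMod p) E} {U : Matrix (Fin m) (Fin m) E}
    (ha : s a = a) (h : B.map s * J p a = U * B) (k : ℕ) :
    B.map (s^[k]) * J p a ^ k = iterU s U k * B := by
  induction k with
  | zero => simp [iterU]
  | succ k ih =>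
    have h1 : B.map (s^[k+1]) = (B.map (s^[k])).map s := by
      ext i j
      simp only [Matrix.map_apply, Function.iterate_succ_apply']
    have h2 : (B.map (s^[k]) * J p a ^ k).map s = (iterU s U k * B).map s := by rw [ih]
    rw [Matrix.map_mul, Matrix.map_mul] at h2
    have h3 : (J p a ^ k).map s = J p a ^ k := by
      rw [← RingHom.mapMatrix_apply s, map_pow, RingHom.mapMatrix_apply, map_J p a s ha]
    rw [h3] at h2
    rw [h1, pow_succ, ← Matrix.mul_assoc, h2, Matrix.mul_assoc, h, ← Matrix.mul_assoc, iterU]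

/-- If the determinant vanishes at a non-zero point, then `a` is a twisted norm. -/
theorem exists_norm_of_det_eq_zero (ha : s a = a) (ha0 : a ≠ 0) (hs : ∀ y : E, s^[p] y = y)
    {x : ZMod p → E} (hx : x ≠ 0) (hdet : (MM p a s x).det = 0) :
    ∃ z : E, ∏ t ∈ Finset.range p, s^[t] z = a := by
  classical
  have hpp : p.Prime := Fact.out
  set M := MM p a s x with hM
  -- the left kernel
  let V : Submodule E (ZMod p → E) := LinearMap.ker M.vecMulLinear
  have hVmem : ∀ y, y ∈ V ↔ Matrix.vecMul y M = 0 := fun y => Iff.rfl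
  have hVbot : V ≠ ⊥ := by
    obtain ⟨v, hv, hv0⟩ := Matrix.exists_vecMul_eq_zero_iff.mpr hdet
    intro h
    have : v ∈ V := (hVmem v).mpr hv0
    rw [h, Submodule.mem_bot] at this
    exact hv this
  have hVtop : V ≠ ⊤ := by
    intro h
    apply hx
    funext l
    have h1 : Pi.single (0 : ZMod p) (1 : E) ∈ V := by rw [h]; trivial
    rw [hVmem] at h1
    have h2 := congrFun h1 l
    rw [Matrix.single_vecMul] at h2
    have h3 : M 0 l = 0 := by simpa using h2
    rw [hM, MM_zero_row] at h3
    rcases mul_eq_zero.mp h3 with h4 | h4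
    · exact h4
    · exfalso
      rw [Finset.prod_eq_zero_iff] at h4
      obtain ⟨t, -, ht⟩ := h4
      simp only [wt] at ht
      split_ifs at ht
      · exact ha0 ht
      · exact one_ne_zero ht
  set m := Module.finrank E V with hm
  have hm0 : 0 < m := by
    rw [hm, Module.finrank_pos_iff]
    exact Submodule.nontrivial_iff_ne_bot.mpr hVbot
  have hmp : m < p := by
    have h1 := Submodule.finrank_lt hVtop
    rwa [Module.finrank_fintype_fun_eq_card, ZMod.card] at h1
  let b : Module.Basis (Fin m) E V := Module.finBasis E V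
  let B : Matrix (Fin m) (ZMod p) E := fun i => (b i : ZMod p → E)
  have hT : ∀ y ∈ V, Matrix.vecMul (fun k => s (y k)) (J p a) ∈ V := by
    intro y hy
    rw [hVmem] at hy ⊢
    rw [Matrix.vecMul_vecMul, J_mul_MM p a s ha (fun j => hs (x j)), ← Matrix.vecMul_vecMul]
    have h1 : Matrix.vecMul (fun k => s (y k)) (M.map s) = fun k => s (Matrix.vecMul y M k) := by
      funext k
      exact (RingHom.map_vecMul s M y k).symm
    rw [← hM, h1, hy]
    simp only [Pi.zero_apply, map_zero]
    exact Matrix.zero_vecMul _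
  let U : Matrix (Fin m) (Fin m) E := fun i j =>
    b.repr ⟨_, hT (b i) (b i).2⟩ j
  have hU : B.map s * J p a = U * B := by
    ext i l
    have h1 := b.sum_repr ⟨_, hT (b i) (b i).2⟩
    have h2 := congrFun (congrArg (Subtype.val) h1) l
    simp only [Submodule.coe_sum, Submodule.coe_smul, Finset.sum_apply, Pi.smul_apply,
      smul_eq_mul] at h2
    rw [Matrix.mul_apply]
    exact h2.symm
  have h3 := iterU_mul p a s ha hU p
  have h4 : B.map (s^[p]) = B := by
    ext i j
    exact hs _
  rw [h4, J_pow_self, Matrix.mul_smul, Matrix.mul_one] at h3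
  -- independence of the rows
  have h5 : iterU s U p = a • (1 : Matrix (Fin m) (Fin m) E) := by
    ext i j
    have h6 : ∑ j, (iterU s U p i j - (a • (1 : Matrix (Fin m) (Fin m) E)) i j) • b j = 0 := by
      apply Subtype.ext
      funext l
      have h7 := congrFun (congrFun h3 i) l
      rw [Matrix.mul_apply] at h7
      simp only [Submodule.coe_sum, Submodule.coe_smul, Finset.sum_apply, Pi.smul_apply,
        smul_eq_mul, sub_mul, Finset.sum_sub_distrib, ZeroMemClass.coe_zero, Pi.zero_apply]
      rw [sub_eq_zero]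
      refine h7.symm.trans ?_
      simp [Matrix.smul_apply, Matrix.one_apply, B]
    have h8 := Fintype.linearIndependent_iff.mp b.linearIndependent _ h6 j
    exact sub_eq_zero.mp h8
  have h6 := congrArg Matrix.det h5
  rw [det_iterU, Matrix.det_smul, Matrix.det_one, mul_one, Fintype.card_fin] at h6
  -- arithmetic
  have hcop : Nat.Coprime m p :=
    ((Nat.Prime.coprime_iff_not_dvd hpp).mpr (Nat.not_dvd_of_pos_of_lt hm0 hmp)).symm
  obtain ⟨r, -, hr⟩ := Nat.exists_mul_mod_eq_one_of_coprime hcop hpp.one_lt
  have hq : m * r = p * (m * r / p) + 1 := by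
    conv_lhs => rw [← Nat.div_add_mod (m * r) p, hr]
  set q := m * r / p with hqdef
  refine ⟨U.det ^ r / a ^ q, ?_⟩
  have hsa : ∀ t : ℕ, (s ^ t) a = a := by
    intro t
    rw [RingHom.coe_pow]
    exact Function.iterate_fixed ha t
  have h7 : ∏ t ∈ Finset.range p, (s ^ t) U.det = a ^ m := by
    rw [← h6]
    exact Finset.prod_congr rfl (fun t _ => by rw [RingHom.coe_pow])
  calc ∏ t ∈ Finset.range p, s^[t] (U.det ^ r / a ^ q)
      = ∏ t ∈ Finset.range p, ((s ^ t) U.det ^ r / a ^ q) := by
        refine Finset.prod_congr rfl (fun t _ => ?_)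
        rw [← RingHom.coe_pow, map_div₀, map_pow, map_pow, hsa]
    _ = (a ^ m) ^ r / (a ^ q) ^ p := by
        rw [Finset.prod_div_distrib, Finset.prod_pow, h7, Finset.prod_const, Finset.card_range]
    _ = a := by
        rw [← pow_mul, ← pow_mul, hq, mul_comm q p, pow_succ,
          mul_div_cancel_left₀ _ (pow_ne_zero _ ha0)]

end Pool.Agent.Helper60.CI
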