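import Pool.Agent.Helper37.CiNorm

/-!
# Restriction of scalars for anisotropic systems
-/

namespace Pool.Agent.Helper60.CI

open MvPolynomial Pool.Agent.Helper37.Ci

universe u v

variable {K : Type u} {L : Type v} [Field K] [Field L] [Algebra K L]

/-- The polynomial whose coefficients are the images of those of `F` under an additive map. -/
noncomputable def coordPoly {τ : Type} (φ : L →ₗ[K] K) (F : MvPolynomial τ L) :
    MvPolynomial τ K := ∑ m ∈ F.support, monomial m (φ (coeff m F))

theorem coeff_coordPoly {τ : Type} (φ : L →ₗ[K] K) (F : MvPolynomial τ L) (m : τ →₀ ℕ) :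
    coeff m (coordPoly φ F) = φ (coeff m F) := by
  classical
  rw [coordPoly, coeff_sum]
  simp only [coeff_monomial]
  rw [Finset.sum_ite_eq']
  split_ifs with h
  · rfl
  · rw [notMem_support_iff.mp h, map_zero]

theorem isHomogeneous_coordPoly {τ : Type} (φ : L →ₗ[K] K) {F : MvPolynomial τ L} {d : ℕ}
    (hF : F.IsHomogeneous d) : (coordPoly φ F).IsHomogeneous d := by
  intro m hm
  rw [coeff_coordPoly] at hm
  exact hF (fun h => hm (by rw [h, map_zero]))

theorem eval_coordPoly {τ : Type} (φ : L →ₗ[K] K) (F : MvPolynomial τ L) (x : τ → K) :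
    eval x (coordPoly φ F) = φ (eval (fun t => algebraMap K L (x t)) F) := by
  rw [coordPoly, map_sum, eval_eq, map_sum]
  refine Finset.sum_congr rfl (fun m _ => ?_)
  rw [eval_monomial]
  have h1 : ∏ i ∈ m.support, (algebraMap K L (x i)) ^ m i
      = algebraMap K L (m.prod fun i e => x i ^ e) := by
    rw [Finsupp.prod, map_prod]
    exact Finset.prod_congr rfl (fun i _ => by rw [map_pow])
  rw [h1, mul_comm (coeff m F), ← Algebra.smul_def, map_smul, smul_eq_mul, mul_comm]

/-- Restriction of scalars. -/
theorem sysT_restrictScalars [FiniteDimensional K L] {σ ι : Type} {d : ℕ} (h : SysT L σ ι d) :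
    SysT K (Fin (Module.finrank K L) × σ) (Fin (Module.finrank K L) × ι) d := by
  classical
  obtain ⟨f, hf, hf0⟩ := h
  let b : Module.Basis (Fin (Module.finrank K L)) K L := Module.finBasis K L
  let ℓ : σ → MvPolynomial (Fin (Module.finrank K L) × σ) L := fun s => ∑ k, C (b k) * X (k, s)
  have hℓ : ∀ s, (ℓ s).IsHomogeneous 1 := by
    intro s
    refine IsHomogeneous.sum _ _ _ (fun k _ => ?_)
    have := (isHomogeneous_C (Fin (Module.finrank K L) × σ) (b k)).mul
      (isHomogeneous_X L (k, s))
    simpa using this
  refine ⟨fun q => coordPoly (b.coord q.1) (aeval ℓ (f q.2)), fun q => ?_, fun x hx => ?_⟩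
  · have := (hf q.2).aeval ℓ hℓ
    rw [one_mul] at this
    exact isHomogeneous_coordPoly _ this
  · have h1 : ∀ j, eval (fun s => ∑ k, x (k, s) • b k) (f j) = 0 := by
      intro j
      have h2 : ∀ l, b.coord l (eval (fun t => algebraMap K L (x t)) (aeval ℓ (f j))) = 0 := by
        intro l
        have := hx (l, j)
        rwa [eval_coordPoly] at this
      have h3 : eval (fun t => algebraMap K L (x t)) (aeval ℓ (f j)) = 0 := by
        apply b.forall_coord_eq_zero_iff.mp h2
      rw [eval_aeval_poly] at h3
      have h6 : (fun s => ∑ k, x (k, s) • b k)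
          = fun s => eval (fun t => algebraMap K L (x t)) (ℓ s) := by
        funext s
        simp only [ℓ, map_sum, map_mul, eval_C, eval_X]
        exact Finset.sum_congr rfl (fun k _ => by rw [Algebra.smul_def, mul_comm])
      rw [h6]
      exact h3
    have h4 := hf0 _ h1
    funext ⟨k, s⟩
    have h5 := congrFun h4 s
    exact Fintype.linearIndependent_iff.mp b.linearIndependent (fun k => x (k, s)) h5 k

/-- Restriction of scalars, numerically. -/
theorem sys_restrictScalars [FiniteDimensional K L] {b N d : ℕ} (h : Sys L b N d) :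
    Sys K (Module.finrank K L * b) (Module.finrank K L * N) d :=
  (sysT_restrictScalars (K := K) h).congr finProdFinEquiv finProdFinEquiv

end Pool.Agent.Helper60.CI
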