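import Pool.Agent.Helper60.CI.CycAniso
import Pool.Agent.Helper60.CI.Scalars

/-!
# The reduced norm form of a cyclic algebra of prime degree
-/

namespace Pool.Agent.Helper60.CI

open MvPolynomial Pool.Agent.Helper37.Ci

universe u

variable {L E : Type u} [Field L] [Field E] [Algebra L E]

theorem isHomogeneous_det' {n τ R : Type*} [Fintype n] [DecidableEq n] [CommRing R]
    (M : Matrix n n (MvPolynomial τ R)) (hM : ∀ i j, (M i j).IsHomogeneous 1) :
    M.det.IsHomogeneous (Fintype.card n) := by
  rw [Matrix.det_apply]
  refine IsHomogeneous.sum _ _ _ (fun s _ => ?_)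
  have h1 : (∏ i, M (s i) i).IsHomogeneous (Fintype.card n) := by
    have := IsHomogeneous.prod Finset.univ (fun i => M (s i) i) (fun _ => 1)
      (fun i _ => hM _ _)
    simpa using this
  rcases Int.units_eq_one_or (Equiv.Perm.sign s) with h | h
  · rw [h, one_smul]; exact h1
  · rw [h, Units.neg_smul, one_smul]; exact h1.neg

/-- A cyclic extension of prime degree `p` in which `a` is not a norm gives a form of degree `p`
in `p ^ 2` variables with only the trivial zero. -/
theorem sys_of_cyclic (p : ℕ) [Fact p.Prime] (s : E →+* E)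
    (hsL : ∀ c : L, s (algebraMap L E c) = algebraMap L E c)
    (hfix : ∀ y : E, s y = y → ∃ c : L, algebraMap L E c = y)
    (hs : ∀ y : E, s^[p] y = y) (e : Module.Basis (Fin p) L E) (a : L)
    (ha : ∀ z : E, ∏ t ∈ Finset.range p, s^[t] z ≠ algebraMap L E a) :
    Sys L (p ^ 2) 1 p := by
  classical
  have hpp : p.Prime := Fact.out
  have ha0 : a ≠ 0 := by
    rintro rfl
    apply ha 0
    rw [map_zero]
    apply Finset.prod_eq_zero (Finset.mem_range.mpr hpp.pos)
    simp
  have ha0' : algebraMap L E a ≠ 0 := by
    rw [Ne, map_eq_zero]; exact ha0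
  -- the generic matrix
  let S : MvPolynomial (ZMod p × Fin p) E →+* MvPolynomial (ZMod p × Fin p) E := map s
  let ξ : ZMod p → MvPolynomial (ZMod p × Fin p) E := fun j => ∑ i, C (e i) * X (j, i)
  have hSit : ∀ (t : ℕ) (j : ZMod p), S^[t] (ξ j) = ∑ i, C (s^[t] (e i)) * X (j, i) := by
    intro t j
    induction t with
    | zero => rfl
    | succ t ih =>
      rw [Function.iterate_succ_apply', ih, map_sum]
      refine Finset.sum_congr rfl (fun i _ => ?_)
      rw [map_mul, Function.iterate_succ_apply']
      simp only [S, map_C, map_X]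
  have hSp : ∀ j, S^[p] (ξ j) = ξ j := by
    intro j
    rw [hSit]
    exact Finset.sum_congr rfl (fun i _ => by rw [hs])
  have hSa : S (C (algebraMap L E a)) = C (algebraMap L E a) := by
    simp only [S, map_C, hsL]
  have hCa0 : (C (algebraMap L E a) : MvPolynomial (ZMod p × Fin p) E) ≠ 0 := by
    rw [Ne, C_eq_zero]; exact ha0'
  set F : MvPolynomial (ZMod p × Fin p) E := (MM p (C (algebraMap L E a)) S ξ).det with hF
  have hSF : S F = F := map_det_MM p _ S hSa hCa0 hSp
  -- descent of the coefficients
  obtain ⟨F₀, hF₀⟩ : F ∈ Set.range (map (σ := ZMod p × Fin p) (algebraMap L E)) := by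
    rw [mem_range_map_iff_coeffs_subset]
    intro y hy
    obtain ⟨m, hm, rfl⟩ := mem_coeffs_iff.mp hy
    apply hfix
    have := congrArg (coeff m) hSF
    simp only [S, coeff_map] at this
    exact this
  -- homogeneity
  have hJ0 : ∀ (m : ℕ) (k l : ZMod p), ((J p (C (algebraMap L E a) :
      MvPolynomial (ZMod p × Fin p) E) ^ m) k l).IsHomogeneous 0 := by
    intro m k l
    rw [J_pow]
    split_ifs
    · have := IsHomogeneous.prod (Finset.range m) (fun t => wt p (C (algebraMap L E a) :
        MvPolynomial (ZMod p × Fin p) E) (k + (t : ZMod p))) (fun _ => 0) (fun t _ => by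
          simp only [wt]
          split_ifs
          · exact isHomogeneous_C _ _
          · exact isHomogeneous_one _ _)
      simpa using this
    · exact isHomogeneous_zero _ _ _
  have hFh : F.IsHomogeneous p := by
    have := isHomogeneous_det' (MM p (C (algebraMap L E a)) S ξ) (fun k l => by
      rw [MM, Matrix.sum_apply]
      refine IsHomogeneous.sum _ _ _ (fun j _ => ?_)
      rw [Dg, Matrix.diagonal_mul, hSit]
      have h1 : (∑ i, C (s^[k.val] (e i)) * X (j, i) :
          MvPolynomial (ZMod p × Fin p) E).IsHomogeneous 1 := by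
        refine IsHomogeneous.sum _ _ _ (fun i _ => ?_)
        have := (isHomogeneous_C (ZMod p × Fin p) (s^[k.val] (e i))).mul
          (isHomogeneous_X E (j, i))
        simpa using this
      exact h1.mul (hJ0 _ _ _))
    rwa [ZMod.card] at this
  have hF₀h : F₀.IsHomogeneous p := by
    apply IsHomogeneous.of_map (algebraMap L E).injective
    rw [hF₀]
    exact hFh
  -- evaluation
  have hev : ∀ y : ZMod p × Fin p → L, eval y F₀ = 0 → y = 0 := by
    intro y hy
    have h1 : eval (fun t => algebraMap L E (y t)) F = 0 := by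
      rw [← hF₀, eval_map, ← map_zero (algebraMap L E), ← hy, ← coe_aeval_eq_eval]
      exact aeval_algebraMap_apply E y F₀
    set φ : MvPolynomial (ZMod p × Fin p) E →+* E := eval (fun t => algebraMap L E (y t)) with hφ
    let x : ZMod p → E := fun j => ∑ i, e i * algebraMap L E (y (j, i))
    have hsit : ∀ (t : ℕ) (c : L), s^[t] (algebraMap L E c) = algebraMap L E c :=
      fun t c => Function.iterate_fixed (hsL c) t
    have hx : ∀ (t : ℕ) (j : ZMod p), φ (S^[t] (ξ j)) = s^[t] (x j) := by
      intro t j
      rw [hSit, map_sum, ← RingHom.coe_pow s, map_sum]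
      refine Finset.sum_congr rfl (fun i _ => ?_)
      rw [map_mul, map_mul]
      simp only [hφ, eval_C, eval_X, RingHom.coe_pow, hsit]
    have hJ1 : (J p (C (algebraMap L E a) : MvPolynomial (ZMod p × Fin p) E)).map φ
        = J p (algebraMap L E a) := by
      ext k l
      simp only [Matrix.map_apply, J, wt]
      split_ifs <;> simp [hφ]
    have hM : (MM p (C (algebraMap L E a)) S ξ).map φ = MM p (algebraMap L E a) s x := by
      rw [MM, MM, ← RingHom.mapMatrix_apply φ, map_sum]
      refine Finset.sum_congr rfl (fun j _ => ?_)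
      rw [map_mul, map_pow, RingHom.mapMatrix_apply, RingHom.mapMatrix_apply, hJ1, Dg, Dg,
        Matrix.diagonal_map (map_zero φ)]
      congr 2
      funext k
      exact hx _ _
    rw [hF, RingHom.map_det, RingHom.mapMatrix_apply, hM] at h1
    by_contra hy0
    have hx0 : x ≠ 0 := by
      intro h
      apply hy0
      funext ⟨j, i⟩
      have h2 := congrFun h j
      have h3 : ∑ i, y (j, i) • e i = 0 := by
        refine Eq.trans ?_ h2
        exact Finset.sum_congr rfl (fun i _ => by rw [Algebra.smul_def, mul_comm])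
      exact Fintype.linearIndependent_iff.mp e.linearIndependent (fun i => y (j, i)) h3 i
    obtain ⟨z, hz⟩ := exists_norm_of_det_eq_zero p _ s (hsL a) ha0' hs hx0 h1
    exact ha z hz
  have hS : SysT L (ZMod p × Fin p) Unit p := ⟨fun _ => F₀, fun _ => hF₀h, fun y hy => hev y (hy ())⟩
  have h9 : Fintype.card (ZMod p × Fin p) = p ^ 2 := by
    rw [Fintype.card_prod, ZMod.card, Fintype.card_fin, sq]
  exact hS.congr ((Fintype.equivFin _).trans (finCongr h9)) finOneEquiv.symm

end Pool.Agent.Helper60.CI
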