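import Mathlib

/-!
# The matrices of a cyclic algebra
-/

namespace Pool.Agent.Helper60.CI

universe u

variable {R : Type u} [CommRing R] (p : ℕ) [Fact p.Prime] (a : R)

/-- The weights of the shift matrix. -/
def wt (k : ZMod p) : R := if k = -1 then a else 1

/-- The weighted cyclic shift. -/
def J : Matrix (ZMod p) (ZMod p) R := fun k l => if l = k + 1 then wt p a k else 0

theorem J_pow (m : ℕ) (k l : ZMod p) :
    (J p a ^ m) k l = if l = k + (m : ZMod p) then ∏ t ∈ Finset.range m, wt p a (k + (t : ZMod p))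
      else 0 := by
  induction m generalizing l with
  | zero => simp [Matrix.one_apply, eq_comm]
  | succ m ih =>
    rw [pow_succ, Matrix.mul_apply, Finset.sum_eq_single (k + (m : ZMod p))]
    · rw [ih, if_pos rfl, Finset.prod_range_succ]
      simp only [J, Nat.cast_succ, add_assoc]
      split_ifs with h
      · rfl
      · rw [mul_zero]
    · intro j _ hj
      rw [ih, if_neg hj, zero_mul]
    · intro h
      exact absurd (Finset.mem_univ _) h

theorem prod_range_cast {M : Type*} [CommMonoid M] (f : ZMod p → M) :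
    ∏ t ∈ Finset.range p, f (t : ZMod p) = ∏ z : ZMod p, f z := by
  have hp : NeZero p := ⟨(Fact.out : p.Prime).ne_zero⟩
  refine Finset.prod_bij' (fun t _ => (t : ZMod p)) (fun z _ => z.val) (fun _ _ => Finset.mem_univ _)
    (fun z _ => Finset.mem_range.mpr (ZMod.val_lt z)) (fun t ht => ?_) (fun z _ => ?_)
    (fun _ _ => rfl)
  · exact ZMod.val_cast_of_lt (Finset.mem_range.mp ht)
  · exact ZMod.natCast_zmod_val z

theorem J_pow_self : J p a ^ p = a • (1 : Matrix (ZMod p) (ZMod p) R) := by
  ext k l
  rw [J_pow, Matrix.smul_apply, Matrix.one_apply]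
  simp only [CharP.cast_eq_zero, add_zero]
  by_cases h : l = k
  · subst h
    rw [if_pos rfl, if_pos rfl, prod_range_cast p (fun z => wt p a (l + z))]
    rw [Fintype.prod_equiv (Equiv.addLeft l) (fun z => wt p a (l + z)) (fun z => wt p a z)
      (fun z => rfl)]
    simp [wt]
  · rw [if_neg h, if_neg (fun h' => h h'.symm), smul_zero]

variable (s : R →+* R)

/-- The diagonal matrix of the conjugates. -/
def Dg (x : R) : Matrix (ZMod p) (ZMod p) R := Matrix.diagonal (fun k => s^[k.val] x)

/-- The matrix of an element of the cyclic algebra. -/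
def MM (x : ZMod p → R) : Matrix (ZMod p) (ZMod p) R := ∑ j, Dg p s (x j) * J p a ^ j.val

theorem map_J (ha : s a = a) : (J p a).map s = J p a := by
  ext k l
  simp only [Matrix.map_apply, J, wt]
  split_ifs <;> simp [ha]

theorem J_mul_Dg {x : R} (hx : s^[p] x = x) :
    J p a * Dg p s x = (Dg p s x).map s * J p a := by
  have hp : Fact (1 < p) := ⟨(Fact.out : p.Prime).one_lt⟩
  have hstep : ∀ k : ZMod p, s^[(k + 1).val] x = s (s^[k.val] x) := by
    intro k
    rw [← Function.iterate_succ_apply' s, ZMod.val_add, ZMod.val_one]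
    exact Function.IsPeriodicPt.iterate_mod_apply (f := s) (n := p) hx (k.val + 1)
  have hmap : (Dg p s x).map s = Matrix.diagonal (fun k => s (s^[k.val] x)) := by
    rw [Dg, Matrix.diagonal_map (map_zero s)]
  ext k l
  rw [hmap, Dg, Matrix.mul_diagonal, Matrix.diagonal_mul]
  simp only [J]
  by_cases h : l = k + 1
  · subst h
    rw [if_pos rfl, hstep]; ring
  · rw [if_neg h]; ring

theorem J_mul_MM (ha : s a = a) {x : ZMod p → R} (hx : ∀ j, s^[p] (x j) = x j) :
    J p a * MM p a s x = (MM p a s x).map s * J p a := by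
  have h1 : (MM p a s x).map s = ∑ j, (Dg p s (x j)).map s * J p a ^ j.val := by
    rw [MM, ← RingHom.mapMatrix_apply s, map_sum]
    refine Finset.sum_congr rfl (fun j _ => ?_)
    rw [map_mul, map_pow, RingHom.mapMatrix_apply, RingHom.mapMatrix_apply, map_J p a s ha]
  rw [h1, MM, Finset.mul_sum, Finset.sum_mul]
  refine Finset.sum_congr rfl (fun j _ => ?_)
  rw [← mul_assoc, J_mul_Dg p a s (hx j), mul_assoc, mul_assoc, ← pow_succ', ← pow_succ]

theorem map_det_MM [IsDomain R] (ha : s a = a) (ha0 : a ≠ 0) {x : ZMod p → R}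
    (hx : ∀ j, s^[p] (x j) = x j) : s (MM p a s x).det = (MM p a s x).det := by
  have hJ : (J p a).det ≠ 0 := by
    intro h
    have h1 := congrArg Matrix.det (J_pow_self p a)
    rw [Matrix.det_pow, h, zero_pow (Fact.out : p.Prime).ne_zero, Matrix.det_smul,
      Matrix.det_one, mul_one] at h1
    exact pow_ne_zero _ ha0 h1.symm
  have h2 := congrArg Matrix.det (J_mul_MM p a s ha hx)
  rw [Matrix.det_mul, Matrix.det_mul, ← RingHom.mapMatrix_apply s, ← RingHom.map_det, mul_comm] at h2
  exact (mul_right_cancel₀ hJ h2).symm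

/-- The first row. -/
theorem MM_zero_row (x : ZMod p → R) (l : ZMod p) :
    MM p a s x 0 l = x l * ∏ t ∈ Finset.range l.val, wt p a (0 + (t : ZMod p)) := by
  have hp : NeZero p := ⟨(Fact.out : p.Prime).ne_zero⟩
  rw [MM, Matrix.sum_apply, Finset.sum_eq_single l]
  · rw [Dg, Matrix.diagonal_mul, J_pow, ZMod.natCast_zmod_val, zero_add, if_pos rfl, ZMod.val_zero]
    rfl
  · intro j _ hj
    rw [Dg, Matrix.diagonal_mul, J_pow, ZMod.natCast_zmod_val, zero_add, if_neg (Ne.symm hj),
      mul_zero]
  · intro h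
    exact absurd (Finset.mem_univ _) h

end Pool.Agent.Helper60.CI
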